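import Mathlib
import Pool.Agent.H82.ConeG

set_option autoImplicit false

namespace Pool.Agent.Results.MP_f8fbfa_gt.Tychonoff

theorem result : ∃ (G : Type) (_ : Group G) (_ : TopologicalSpace G), ContinuousMul G ∧
    T35Space G ∧ (∃ (φ : (G × G) ≃ₜ (G × G)) (e : G),
      (∀ p : G × G, (φ p).1 = p.1) ∧ ∀ x : G, φ (x, x) = (x, e)) ∧
    ∀ (H : Type) [Group H] [TopologicalSpace H] [IsTopologicalGroup H], IsEmpty (G ≃ₜ H) :=
  Pool.Agent.H82.ConeG.main

end Pool.Agent.Results.MP_f8fbfa_gt.Tychonoff
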